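import Pool.Agent.Helper190_Proj.Main

open CategoryTheory
open Pool.Agent.Helper190_CoarseTwo (CharTwo ClosedDiagonal)
open Pool.Agent.Helper190_Proj

namespace Pool.Agent.Results.MP_bceb84_ag.CanonicalRings

/-- Consider families of canonical rings of canonically polarized surfaces with `K² = 8`, `χ = 5`,
`q = 0`. For every functor `M` with closed diagonal receiving an invariant map from the families,
every functor `M'` on rings with `2 = 0` through which the functions on open parts of the moduli
problem factor, and every compatible comparison map `φ : M' ⟶ M ⊗ 𝔽₂`, the map `φ` is not a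
monomorphism. -/
theorem result (M : CommRingCat.{0} ⥤ Type) (hM : ClosedDiagonal M)
    (π : ∀ R : CommRingCat.{0}, Fam (CanRing 8 5) R → M.obj R) (hπ : IsNat M π)
    (M' : CharTwo.FullSubcategory ⥤ Type)
    (π' : ∀ R : CharTwo.FullSubcategory, Fam (CanRing 8 5) R.obj → M'.obj R)
    (hM' : OpenSep M' π') (φ : M' ⟶ CharTwo.ι ⋙ M)
    (hφ : ∀ (R : CharTwo.FullSubcategory) (X : Fam (CanRing 8 5) R.obj),
      φ.app R (π' R X) = π R.obj X) :
    ¬ Mono φ :=
  main3 M hM π hπ M' π' hM' φ hφ

end Pool.Agent.Results.MP_bceb84_ag.CanonicalRings
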